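import Pool.Agent.Results.MP_a325a5_ag.RandomMixedCorrespondences

set_option autoImplicit false

/-! # One residue class of correspondences without atypical intersections

The proof is the one of `RandomMixedCorrespondences.result`. -/

namespace Pool.Agent.N593.ZP

open MvPolynomial Pool.Agent.W282.ZP H294ZP UpperHalfPlane
open Pool.Agent.Results.MP_a325a5_ag.RandomMixedCorrespondences

variable {N n k r : ℕ} {D : Fin n ⊕ Fin k → ℕ} {d : Fin r → ℕ}

/-- The class lemma: all vectors in one residue class have the property. -/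
theorem one_class {κ : Type} {N n k : ℕ} (m r : ℕ) (G : κ → MvPolynomial (Fin (N + 1)) ℂ)
    (hhom : ∀ k, ∃ e, (G k).IsHomogeneous e) (halg : ∀ k s, IsAlgebraic ℚ ((G k).coeff s))
    (hdim : DimLE G m) (V : Set (Fin r → ℂ)) (hV : (idealOf V).IsPrime)
    (D : Fin n ⊕ Fin k → ℕ) (hD : ∀ w, 0 < D (Sum.inr w))
    (g : (i : Fin n) → Fin (D (Sum.inl i) + 1) → ℍ → ℂ) (hg : System D g)
    (d : Fin r → ℕ) (Γ : Finset ℂ)
    (Q₀ : ℕ) (hQ₀ : 0 < Q₀) (c₀ : Coeffs N r D d) :
    ∃ (Q : ℕ) (Gt : Coeffs N r D d), 0 < Q ∧ ∀ c : Coeffs N r D d, (∀ i, (Q : ℤ) ∣ c i - Gt i) →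
      (∀ i, (Q₀ : ℤ) ∣ c i - c₀ i) ∧ NoAtypical Γ (pullback G g c V) m r (zdim V) := by
  classical
  have hfin : Algebra.trdeg ℂ (MvPolynomial (Fin r) ℂ ⧸ idealOf V) < Cardinal.aleph0 :=
    trdeg_lt_aleph0_of_finiteType
  obtain ⟨dV, hd⟩ := Cardinal.lt_aleph0.1 hfin
  have h1 : ∃ t : Fin (m + 1) → Fin (N + 1) → ℂ, ∀ y : Fin (N + 1) → ℂ,
      (∀ k, eval y (G k) = 0) → (∀ b, ∑ j, t b j * y j = 0) → y = 0 := by
    obtain ⟨t, ht⟩ := hdim
    refine ⟨t, fun y hy hb => ?_⟩
    by_contra h0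
    obtain ⟨b, hb'⟩ := ht y ⟨h0, hy⟩
    exact hb' (hb b)
  choose M₁ A₁ hB₁ using hg.regular
  choose b hb using hg.cusps
  choose M₂ A₂ hA₂ hA₂0 hB₂ using hb
  obtain ⟨K, Q, Gt, hK, hQ, hmain⟩ := Pool.Agent.TH971.SR.exists_classX D hD b M₁ A₁ M₂ A₂ hA₂
    hA₂0 d (idealOf V) hd G hhom halg h1 Γ Q₀ hQ₀ c₀
  refine ⟨Q, Gt, hQ, fun c hc => ?_⟩
  obtain ⟨hc0, hkey⟩ := hmain c hc
  refine ⟨hc0, ?_⟩
  have hform : ∀ (s : Fin 2) (y : Fin (N + 1) → ℂ) (z : Fin n → ℍ) (u : Fin k → ℂ) (j : Fin r),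
      Pool.Agent.TH971.SR.mvX (fun e' => Pool.Agent.W466.ZP.ev (fun u => c ⟨(j, s, e'), u⟩) y)
        (Pool.Agent.TH971.SR.gX (fun i a => g i a (z i)) u) = form g c s y z u j := by
    intro s y z u j
    unfold form Pool.Agent.TH971.SR.mvX
    refine Finset.sum_congr rfl fun f _ => ?_
    rw [Fintype.prod_sum_type]
    rfl
  have hkey' : ∀ (z : Fin n → ℍ) (u : Fin k → ℂ) (ρ : ℕ), InSpecial Γ (fun i => jj (z i)) u ρ →
      ∀ (y : Fin (N + 1) → ℂ) (j0 : Fin (N + 1)), y j0 = 1 → (y, z, u) ∈ pullback G g c V →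
      ∀ (T1 : Finset (Fin (N + 1))) (T2 : Finset (Fin n ⊕ Fin k)),
      AlgebraicIndependent K (Sum.elim (fun j : T1 => y j) (fun j : T2 => coords z u j)) →
      T1.card + T2.card + ρ + r ≤ m + n + k + dV := by
    rintro z u ρ ⟨t, Z, Λ, η, hη, hρ, hx, hu⟩ y j0 hj0 hX T1 T2 hT
    have hrn : t ≤ n := by
      choose f hf using Z.surj
      have hf' : Function.Injective f := by
        intro l l' h
        have h2 := hf l
        rw [h, hf l'] at h2
        exact (Option.some_injective _ h2).symm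
      simpa using Fintype.card_le_of_injective f hf'
    have h3 := hkey t Z.cls (fun i => jj (z i)) hrn (fun i hi => by
        obtain ⟨z', hz'⟩ := hx
        have h6 : jj (z i) = Z.const i := (hz' i).1 hi
        rw [h6]
        exact (Z.allowed i).isIntegral) (fun i i' l hi hi' => rel_of_class Z hx hi hi')
      (fun i a => g i a (z i)) (fun i => hg.one i _) (fun i a => hB₁ i a _)
      (fun i a => hB₂ i a _) u Λ η hη hu.2 y j0 hj0 hX.1.2
      (fun q hq => by
        have h6 := hX.2.2 q hq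
        have h7 : Pool.Agent.TH971.SP.homV (fun j => form g c 0 y z u j)
          (fun j => form g c 1 y z u j) q = 0 := h6
        rw [funext fun j => hform 0 y z u j, funext fun j => hform 1 y z u j]
        exact h7) T1 T2 hT
    omega
  have hfinal : ∀ {T q : ℕ} {z : Cardinal}, z ≤ (T : Cardinal) → T + q + r ≤ m + n + k + dV →
      z + (q : Cardinal) + (r : Cardinal) ≤
        (m : Cardinal) + (n : Cardinal) + (k : Cardinal) + zdim V := by
    intro T q z hz h
    calc z + (q : Cardinal) + (r : Cardinal)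
        ≤ (T : Cardinal) + (q : Cardinal) + (r : Cardinal) := by gcongr
      _ = ((T + q + r : ℕ) : Cardinal) := by push_cast; rfl
      _ ≤ ((m + n + k + dV : ℕ) : Cardinal) := by exact_mod_cast h
      _ = (m : Cardinal) + (n : Cardinal) + (k : Cardinal) + zdim V := by
        rw [zdim, hd]; push_cast; rfl
  intro ρ
  constructor
  · intro s σ W p hW hcl hprime hp
    obtain ⟨w, hwW, hpw, T, hT, hdimW⟩ :=
      Pool.Agent.W282.LF.generic_dim_open K W hprime hcl p hp
    obtain ⟨⟨y, z, v⟩, hyX, hwS, hwz⟩ := hW w hwW hpw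
    obtain ⟨j0, hj0⟩ : ∃ j0, y j0 ≠ 0 := by
      by_contra hcon
      push Not at hcon
      exact hyX.1.1 (funext hcon)
    refine hfinal hdimW ?_
    set T' : Finset (Fin n ⊕ Fin k) := T.map σ.toEmbedding with hT'
    have hTT : ∀ j, j ∈ T' → σ.symm j ∈ T := by
      intro j hj
      obtain ⟨t, ht, h⟩ := Finset.mem_map.1 hj
      rw [← h]
      simpa using ht
    have h3 := hkey' z v ρ hwS ((y j0)⁻¹ • y) j0 (by
      rw [Pi.smul_apply, smul_eq_mul, inv_mul_cancel₀ hj0]) (scale_mem hhom hyX (inv_ne_zero hj0))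
      ∅ T' (by
        let g : ((∅ : Finset (Fin (N + 1))) ⊕ T') → T := Sum.elim
          (fun j => absurd j.2 (Finset.notMem_empty _)) (fun j => ⟨σ.symm j, hTT _ j.2⟩)
        have hg : Function.Injective g := by
          rintro (x | x) (y | y) h
          · exact absurd x.2 (Finset.notMem_empty _)
          · exact absurd x.2 (Finset.notMem_empty _)
          · exact absurd y.2 (Finset.notMem_empty _)
          · have h1 := congrArg Subtype.val h
            rw [Subtype.ext (σ.symm.injective h1)]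
        have h5 := hT.comp g hg
        convert h5 using 1
        funext j
        rcases j with j | j
        · exact absurd j.2 (Finset.notMem_empty _)
        · change coords z v j = w (σ.symm j)
          rw [hwz, Equiv.apply_symm_apply])
    rw [Finset.card_empty, zero_add, hT', Finset.card_map] at h3
    exact h3
  · intro j₀ s σ W p hW hcl hprime hp
    obtain ⟨w, hwW, hpw, T, hT, hdimW⟩ :=
      Pool.Agent.W282.LF.generic_dim_open K W hprime hcl p hp
    obtain ⟨⟨y, z, v⟩, hzX, hzj, hzS, hwz⟩ := hW w hwW hpw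
    set T' : Finset (Fin (N + 1) ⊕ (Fin n ⊕ Fin k)) := T.map σ.toEmbedding with hT'
    have hTT : ∀ j, j ∈ T' → σ.symm j ∈ T := by
      intro j hj
      obtain ⟨t, ht, h⟩ := Finset.mem_map.1 hj
      rw [← h]
      simpa using ht
    let g : T'.toLeft ⊕ T'.toRight → T := Sum.elim
      (fun j => ⟨σ.symm (Sum.inl j), hTT _ (Finset.mem_toLeft.1 j.2)⟩)
      (fun j => ⟨σ.symm (Sum.inr j), hTT _ (Finset.mem_toRight.1 j.2)⟩)
    have hg : Function.Injective g := by
      rintro (x | x) (y | y) h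
      · have h1 := congrArg Subtype.val h
        have h2 := Sum.inl_injective (σ.symm.injective h1)
        rw [Subtype.ext h2]
      · have h1 := congrArg Subtype.val h
        have h2 := σ.symm.injective h1
        exact absurd h2 Sum.inl_ne_inr
      · have h1 := congrArg Subtype.val h
        have h2 := σ.symm.injective h1
        exact absurd h2 Sum.inr_ne_inl
      · have h1 := congrArg Subtype.val h
        have h2 := Sum.inr_injective (σ.symm.injective h1)
        rw [Subtype.ext h2]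
    refine hfinal hdimW ?_
    have h3 := hkey' z v ρ hzS y j₀ hzj hzX T'.toLeft T'.toRight (by
        have h5 := hT.comp g hg
        convert h5 using 1
        funext j
        rcases j with j | j
        · change y j = w (σ.symm (Sum.inl j))
          rw [hwz, Equiv.apply_symm_apply]
          rfl
        · change coords z v j = w (σ.symm (Sum.inr j))
          rw [hwz, Equiv.apply_symm_apply]
          rfl)
    have hT2 : T'.toLeft.card + T'.toRight.card = T.card := by
      rw [Finset.card_toLeft_add_card_toRight, hT', Finset.card_map]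
    rw [hT2] at h3
    exact h3

/-- Residue classes for finitely many properties at once. -/
theorem finite_class {ι β : Type*} [Finite β] (P : β → (ι → ℤ) → Prop)
    (hP : ∀ b, ∀ Q₀ : ℕ, 0 < Q₀ → ∀ c₀ : ι → ℤ, ∃ (Q : ℕ) (Gt : ι → ℤ), 0 < Q ∧
      ∀ c : ι → ℤ, (∀ i, (Q : ℤ) ∣ c i - Gt i) → (∀ i, (Q₀ : ℤ) ∣ c i - c₀ i) ∧ P b c)
    (Q₀ : ℕ) (hQ₀ : 0 < Q₀) (c₀ : ι → ℤ) :
    ∃ (Q : ℕ) (Gt : ι → ℤ), 0 < Q ∧ ∀ c : ι → ℤ, (∀ i, (Q : ℤ) ∣ c i - Gt i) →
      (∀ i, (Q₀ : ℤ) ∣ c i - c₀ i) ∧ ∀ b, P b c := by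
  classical
  have := Fintype.ofFinite β
  have key : ∀ s : Finset β, ∃ (Q : ℕ) (Gt : ι → ℤ), 0 < Q ∧ ∀ c : ι → ℤ,
      (∀ i, (Q : ℤ) ∣ c i - Gt i) → (∀ i, (Q₀ : ℤ) ∣ c i - c₀ i) ∧ ∀ b ∈ s, P b c := by
    intro s
    induction s using Finset.induction_on with
    | empty => exact ⟨Q₀, c₀, hQ₀, fun c hc => ⟨hc, fun b hb => absurd hb (Finset.notMem_empty b)⟩⟩
    | insert b s hb ih =>
      obtain ⟨Q₁, G₁, hQ₁, h₁⟩ := ih
      obtain ⟨Q, Gt, hQ, h⟩ := hP b Q₁ hQ₁ G₁
      refine ⟨Q, Gt, hQ, fun c hc => ?_⟩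
      obtain ⟨hc1, hb1⟩ := h c hc
      obtain ⟨hc0, hs⟩ := h₁ c hc1
      refine ⟨hc0, fun b' hb' => ?_⟩
      rcases Finset.mem_insert.mp hb' with rfl | hb'
      · exact hb1
      · exact hs b' hb'
  obtain ⟨Q, Gt, hQ, h⟩ := key Finset.univ
  exact ⟨Q, Gt, hQ, fun c hc => ⟨(h c hc).1, fun b => (h c hc).2 b (Finset.mem_univ b)⟩⟩

end Pool.Agent.N593.ZP
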