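import Pool.Agent.N666.TM.Turan
import Pool.Agent.N666.TM.Thin

set_option autoImplicit false
set_option linter.unusedSectionVars false

/-! # One residue class along a vector of generalised polynomials -/

namespace Pool.Agent.N593.ZP

open Finset Filter Pool.Agent.Y722.HS Pool.Agent.N666.TM

/-- a well distributed vector meets one residue class modulo `Q` in a positive proportion -/
theorem class_of_well {ι : Type} [Fintype ι] [DecidableEq ι] {s : Finset ℕ} {x : ℕ → ι → ℤ} {H : ℕ}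
    (hw : Well s x H) {Q : ℕ} (hQ : 0 < Q) (hQH : Q ≤ H) (G : ι → ℤ) :
    1 / (2 * (Q : ℝ) ^ Fintype.card ι) * s.card ≤
      ((s.filter fun n => red Q (x n) = red Q G).card : ℝ) := by
  have hs : (0 : ℝ) < s.card := by exact_mod_cast hw.pos
  have hH : (1 : ℝ) ≤ H := by exact_mod_cast (show 1 ≤ H by omega)
  have h := (abs_le.mp (hw.dist Q hQ (by omega) (red Q G))).1
  set w : ℝ := 1 / (Q : ℝ) ^ Fintype.card ι with hwdef
  have hw0 : 0 ≤ w := by positivity
  have h1 : 1 / (2 * (H : ℝ) + 1) ≤ 1 / 2 :=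
    one_div_le_one_div_of_le (by norm_num) (by linarith)
  have h2 : w / 2 ≤ ((#{n ∈ s | red Q (x n) = red Q G} : ℕ) : ℝ) / s.card := by
    nlinarith
  rw [le_div_iff₀ hs] at h2
  have h3 : 1 / (2 * (Q : ℝ) ^ Fintype.card ι) = w / 2 := by
    rw [hwdef]
    field_simp
  rw [h3]
  exact h2

theorem red_eq_iff {ι : Type*} {Q : ℕ} {c G : ι → ℤ} :
    red Q c = red Q G ↔ ∀ i, (Q : ℤ) ∣ c i - G i := by
  unfold red
  rw [funext_iff]
  refine forall_congr' fun i => ?_
  rw [← sub_eq_zero, ← Int.cast_sub, ZMod.intCast_zmod_eq_zero_iff_dvd]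

theorem eventually_le_rpow {κ : ℝ} (hκ : 0 < κ) (Q : ℕ) :
    ∃ N₀ : ℕ, ∀ N : ℕ, N₀ ≤ N → (Q : ℝ) ≤ (N : ℝ) ^ κ := by
  have h : Tendsto (fun N : ℕ => (N : ℝ) ^ κ) atTop atTop :=
    (tendsto_rpow_atTop hκ).comp tendsto_natCast_atTop_atTop
  exact eventually_atTop.mp (h.eventually_ge_atTop (Q : ℝ))

/-- One residue class contains a positive proportion of the values of a vector of generalised
polynomials at integers and at primes. The proportion depends only on the modulus. -/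
theorem thin_class {ι : Type} [Fintype ι] {F : ι → Finset ℝ} {a : ι → ℝ → ℝ} {c : ι → ℝ}
    (h : ∀ i, c i ∈ F i ∧ (∀ t ∈ F i, t ≤ c i) ∧ 0 < c i ∧ (∀ m : ℕ, c i ≠ m) ∧ 0 < a i (c i))
    (hc : Function.Injective c) {Q : ℕ} (hQ : 0 < Q) (G : ι → ℤ) :
    ∃ N₀ : ℕ, ∀ N : ℕ, N₀ ≤ N →
      1 / (2 * (Q : ℝ) ^ Fintype.card ι) * N ≤
        (((Finset.Ioc N (2 * N)).filter fun n : ℕ =>
          ∀ i, (Q : ℤ) ∣ ⌊∑ t ∈ F i, a i t * (n : ℝ) ^ t⌋ - G i).card : ℝ) ∧
      1 / (2 * (Q : ℝ) ^ Fintype.card ι) * ((Finset.Ioc N (2 * N)).filter Nat.Prime).card ≤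
        ((((Finset.Ioc N (2 * N)).filter Nat.Prime).filter fun n : ℕ =>
          ∀ i, (Q : ℤ) ∣ ⌊∑ t ∈ F i, a i t * (n : ℝ) ^ t⌋ - G i).card : ℝ) := by
  classical
  rcases isEmpty_or_nonempty ι with hι | hι
  · refine ⟨0, fun N _ => ?_⟩
    have hone : 1 / (2 * (Q : ℝ) ^ Fintype.card ι) ≤ 1 := by
      rw [Fintype.card_eq_zero, pow_zero]
      norm_num
    have hIoc : (Finset.Ioc N (2 * N)).card = N := by
      rw [Nat.card_Ioc]
      omega
    constructor
    · rw [Finset.filter_true_of_mem (s := Finset.Ioc N (2 * N))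
        (fun n _ => fun i => (hι.false i).elim), hIoc]
      have : (0 : ℝ) ≤ N := by positivity
      nlinarith
    · rw [Finset.filter_true_of_mem (s := (Finset.Ioc N (2 * N)).filter Nat.Prime)
        (fun n _ => fun i => (hι.false i).elim)]
      have : (0 : ℝ) ≤ (((Finset.Ioc N (2 * N)).filter Nat.Prime).card : ℝ) := by positivity
      nlinarith
  · obtain ⟨⟨κ₁, hκ₁, N₁, h₁⟩, ⟨κ₂, hκ₂, N₂, h₂⟩⟩ := fl_well h hc
    obtain ⟨N₃, h₃⟩ := eventually_le_rpow hκ₁ Q
    obtain ⟨N₄, h₄⟩ := eventually_le_rpow hκ₂ Q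
    refine ⟨max (max N₁ N₂) (max N₃ N₄), fun N hN => ?_⟩
    have hN1 : N₁ ≤ N := ((le_max_left _ _).trans (le_max_left _ _)).trans hN
    have hN2 : N₂ ≤ N := ((le_max_right _ _).trans (le_max_left _ _)).trans hN
    have hN3 : N₃ ≤ N := ((le_max_left _ _).trans (le_max_right _ _)).trans hN
    have hN4 : N₄ ≤ N := ((le_max_right _ _).trans (le_max_right _ _)).trans hN
    have e₁ := class_of_well (h₁ N hN1 Q (h₃ N hN3)) hQ le_rfl G
    have e₂ := class_of_well (h₂ N hN2 Q (h₄ N hN4)) hQ le_rfl G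
    have hIoc : (Finset.Ioc N (2 * N)).card = N := by
      rw [Nat.card_Ioc]
      omega
    rw [hIoc] at e₁
    simp only [red_eq_iff] at e₁ e₂
    refine ⟨?_, ?_⟩
    · refine e₁.trans (Nat.cast_le.mpr (Finset.card_le_card fun n hn => ?_))
      rw [Finset.mem_filter] at hn ⊢
      exact hn
    · have hp : Pool.Agent.N666.VE.primes N = (Finset.Ioc N (2 * N)).filter Nat.Prime := rfl
      rw [hp] at e₂
      refine e₂.trans (Nat.cast_le.mpr (Finset.card_le_card fun n hn => ?_))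
      rw [Finset.mem_filter] at hn ⊢
      exact hn

end Pool.Agent.N593.ZP
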